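import Pool.Agent.Helper23.CC.Spec

set_option autoImplicit false

namespace Pool.Agent.Helper72.CC

open Pool.Agent.Helper23.CC Polynomial

lemma natDegree_lin {K : Type} [Field K] (a b : K) : (C a * X + C b : Polynomial K).natDegree ≤ 1 := by
  refine (natDegree_add_le _ _).trans ?_
  simp only [natDegree_C, max_le_iff]
  refine ⟨?_, Nat.zero_le _⟩
  refine (natDegree_C_mul_le a X).trans ?_
  rw [natDegree_X]

section

variable {K : Type} [Field K] (h3 : St_HZ) (N : ℕ)

include h3

lemma hz_pow (f : Polynomial K) (hf : f.natDegree ≤ 1) (k : ℕ) :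
    hz N k (f ^ k) = hz N 1 f ^ k := by
  induction k with
  | zero =>
    have := (h3 K N).2.2.2.1 1
    simpa using this
  | succ k ih =>
    rw [pow_succ, pow_succ, ← ih]
    refine (h3 K N).2.1 k 1 _ _ ?_ hf
    calc (f ^ k).natDegree ≤ k * f.natDegree := natDegree_pow_le
      _ ≤ k * 1 := Nat.mul_le_mul le_rfl hf
      _ = k := mul_one k

lemma hz_lin (t : K) : hz N 1 (X - C t) = lf 1 (-t) := by
  have := (h3 K N).2.2.1 1 (-t)
  rw [← this]
  congr 1
  rw [C_1, one_mul, C_neg, sub_eq_add_neg]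

lemma hz_sum_form {σ : Type} [DecidableEq σ] (S : Finset σ) (t : σ → K) (mult : σ → ℕ) (al be : σ → K)
    (hm : ∀ s ∈ S, 1 ≤ mult s) (D : ℕ) (hD : ∑ s ∈ S, mult s = D) :
    hz N D (∑ s ∈ S, (mult s : Polynomial K) *
          ((C (al s) * X + C (be s)) * (X - C (t s)) ^ (mult s - 1)) *
          ∏ u ∈ S.erase s, (X - C (t u)) ^ mult u) =
      ∑ s ∈ S, (mult s : MvPolynomial (Fin (N + 2)) K) *
        (lf (al s) (be s) * lf 1 (- t s) ^ (mult s - 1)) * ∏ u ∈ S.erase s, lf 1 (- t u) ^ mult u := by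
  rw [(h3 K N).2.2.2.2.2.2]
  refine Finset.sum_congr rfl fun s hs => ?_
  have hd1 : ∀ a b : K, (C a * X + C b : Polynomial K).natDegree ≤ 1 := natDegree_lin
  have hd2 : ∀ (u : σ) (k : ℕ), ((X - C (t u)) ^ k : Polynomial K).natDegree ≤ k := fun u k => by
    rw [natDegree_pow, natDegree_X_sub_C, mul_one]
  have hDs : D = (0 + (1 + (mult s - 1))) + ∑ u ∈ S.erase s, mult u := by
    rw [← hD, ← Finset.add_sum_erase S mult hs]
    have := hm s hs
    omega
  have hdA : ((mult s : Polynomial K) * ((C (al s) * X + C (be s)) * (X - C (t s)) ^ (mult s - 1))).natDegree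
      ≤ 0 + (1 + (mult s - 1)) := by
    refine natDegree_mul_le_of_le (by simp) (natDegree_mul_le_of_le (hd1 _ _) (hd2 _ _))
  have hdB : (∏ u ∈ S.erase s, (X - C (t u)) ^ mult u : Polynomial K).natDegree ≤
      ∑ u ∈ S.erase s, mult u :=
    (natDegree_prod_le _ _).trans (Finset.sum_le_sum fun u _ => hd2 u _)
  rw [hDs, (h3 K N).2.1 _ _ _ _ hdA hdB, (h3 K N).2.1 0 (1 + (mult s - 1)) _ _ (by simp)
    (natDegree_mul_le_of_le (hd1 _ _) (hd2 _ _)), (h3 K N).2.1 1 (mult s - 1) _ _ (hd1 _ _) (hd2 _ _),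
    (h3 K N).2.2.1, hz_pow h3 N _ (by rw [natDegree_X_sub_C]) _, hz_lin h3,
    (h3 K N).2.2.2.2.2.1 σ (S.erase s) (fun u => (X - C (t u)) ^ mult u) mult (fun u _ => hd2 u _)]
  have hc : hz N 0 ((mult s : ℕ) : Polynomial K) = (mult s : MvPolynomial (Fin (N + 2)) K) := by
    have := (h3 K N).2.2.2.1 (mult s : K)
    rw [map_natCast, map_natCast] at this
    exact this
  rw [hc]
  congr 1
  refine Finset.prod_congr rfl fun u _ => ?_
  rw [hz_pow h3 N _ (by rw [natDegree_X_sub_C]) _, hz_lin h3]

end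

theorem surj (h1 : St_ALG) (h2 : St_TAN) (h3 : St_HZ) (h4 : St_DEC) : St_SURJ := by
  intro K _ _ N A σ _ _ _ _ d Z own mult hd hmult hsum hle
  classical
  -- distinct points
  obtain ⟨t, ht⟩ : ∃ t : σ → K, Function.Injective t := by
    refine ⟨fun s => ((Fintype.equivFin σ s : ℕ) : K), fun s s' h => ?_⟩
    have h' : ((Fintype.equivFin σ s : ℕ)) = (Fintype.equivFin σ s' : ℕ) := Nat.cast_injective h
    exact (Fintype.equivFin σ).injective (Fin.ext h')
  set Sl : A → Finset σ := fun a => Finset.univ.filter fun s => own s = a with hSl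
  set h : A → Polynomial K := fun a => ∏ s ∈ Sl a, (X - C (t s)) ^ (mult s - 1) with hh
  have hmon : ∀ a, (h a).Monic := fun a => monic_prod_of_monic _ _ fun s _ => (monic_X_sub_C _).pow _
  have hdeg : ∀ a, (h a).natDegree = ∑ s ∈ Sl a, (mult s - 1) := fun a => by
    rw [hh]
    simp only
    rw [natDegree_prod_of_monic _ _ fun s _ => (monic_X_sub_C _).pow _]
    refine Finset.sum_congr rfl fun s _ => ?_
    rw [natDegree_pow, natDegree_X_sub_C, mul_one]
  have hsl : ∀ a, ∑ s ∈ Sl a, (mult s - 1) + (Sl a).card = ∑ s ∈ Sl a, mult s := fun a => by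
    rw [Finset.card_eq_sum_ones, ← Finset.sum_add_distrib]
    refine Finset.sum_congr rfl fun s _ => ?_
    have := hmult s
    omega
  have hdega : ∀ a, a ∉ Z → (h a).natDegree + (Sl a).card = d a := fun a ha => by
    rw [hdeg, hsl, hsum a ha]
  obtain ⟨B, hB1, hB2⟩ := h1 K A d Z h N hd (fun a ha => ⟨hmon a, by have := hdega a ha; omega⟩)
    (fun a b _ _ hab => by
      refine IsCoprime.prod_left fun s hs => IsCoprime.prod_right fun u hu => ?_
      refine IsCoprime.pow ?_
      refine isCoprime_X_sub_C_of_isUnit_sub ?_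
      have hsu : s ≠ u := by
        rintro rfl
        have e1 : own s = a := (Finset.mem_filter.1 hs).2
        have e2 : own s = b := (Finset.mem_filter.1 hu).2
        exact hab (e1.symm.trans e2)
      exact (sub_ne_zero.2 fun e => hsu (ht e)).isUnit)
    (by
      refine le_trans (le_of_eq ?_) hle
      congr 1
      refine Finset.sum_congr rfl fun a ha => ?_
      have := hdega a (Finset.mem_compl.1 ha)
      show (h a).natDegree = d a - (Sl a).card
      omega)
  obtain ⟨b, hb⟩ := h4.2 K N A d (fun a j => hz N (d a - 1) (B a j)) (fun a j =>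
    (h3 K N).2.2.2.2.1 _ _)
  refine ⟨Sum.elim (fun _ => 0) (Sum.elim (Sum.elim (fun _ => 1) (fun s => - t s)) b), fun φ hφ => ?_⟩
  choose f ψ hf hψ hφe using fun a => h4.1 K N (d a) (hd a) (φ a) (hφ a)
  obtain ⟨b', hb'⟩ := h4.2 K N A d ψ hψ
  obtain ⟨lam, mu, hZ, hnZ⟩ := hB2 f hf
  -- the products of powers
  have htan : ∀ a, ∃ al be : σ → K, a ∉ Z →
      f a - ∑ j, (C (lam j) * X + C (mu j)) * B a j =
        ∑ s ∈ Sl a, (mult s : Polynomial K) *
          ((C (al s) * X + C (be s)) * (X - C (t s)) ^ (mult s - 1)) *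
          ∏ u ∈ (Sl a).erase s, (X - C (t u)) ^ mult u := by
    intro a
    by_cases ha : a ∈ Z
    · exact ⟨fun _ => 0, fun _ => 0, fun h => absurd ha h⟩
    · obtain ⟨g, hg⟩ := hnZ a ha
      have hFd : (f a - ∑ j, (C (lam j) * X + C (mu j)) * B a j).natDegree ≤ d a := by
        refine (natDegree_sub_le _ _).trans (max_le (hf a) ?_)
        refine natDegree_sum_le_of_forall_le _ _ fun j _ => ?_
        have h5 : (B a j).natDegree ≤ d a - 1 := by
          by_cases h0 : B a j = 0
          · rw [h0]; simp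
          · have := (natDegree_lt_iff_degree_lt h0).2 (hB1 a j)
            omega
        have h6 : (C (lam j) * X + C (mu j) : Polynomial K).natDegree ≤ 1 := natDegree_lin _ _
        have := natDegree_mul_le_of_le h6 h5
        have := hd a
        omega
      have hgd : g.natDegree ≤ (Sl a).card := by
        by_cases h0 : g = 0
        · rw [h0]; simp
        · rw [hg, (hmon a).natDegree_mul' h0] at hFd
          have := hdega a ha
          omega
      have hne : (Sl a).Nonempty := by
        rw [Finset.nonempty_iff_ne_empty]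
        intro he
        have h7 := hsum a ha
        rw [show (Finset.univ.filter fun s => own s = a) = Sl a from rfl, he, Finset.sum_empty] at h7
        have := hd a
        omega
      obtain ⟨al, be, h8⟩ := h2 K σ (Sl a) t mult ht.injOn hne (fun s _ => hmult s) g hgd
      exact ⟨al, be, fun _ => by rw [hg, ← h8]⟩
  choose al be htan using htan
  refine ⟨Sum.elim (Sum.elim (fun j => - lam j) (fun j => - mu j))
    (Sum.elim (Sum.elim (fun s => al (own s) s) (fun s => be (own s) s)) b'), fun a => ?_⟩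
  have hlfneg : ∀ x y : K, (lf (-x) (-y) : MvPolynomial (Fin (N + 2)) K) = - lf x y := fun x y => by
    unfold lf
    rw [map_neg, map_neg]; ring
  have hlf0 : (lf 0 0 : MvPolynomial (Fin (N + 2)) K) = 0 := by
    unfold lf; simp
  have hBd : ∀ j, (B a j).natDegree ≤ d a - 1 := fun j => by
    by_cases h0 : B a j = 0
    · rw [h0]; simp
    · have := (natDegree_lt_iff_degree_lt h0).2 (hB1 a j)
      omega
  have hlin : ∀ j, (C (lam j) * X + C (mu j) : Polynomial K).natDegree ≤ 1 := fun j => natDegree_lin _ _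
  have hda : 1 + (d a - 1) = d a := by have := hd a; omega
  have hprod : ∀ j, lf (lam j) (mu j) * hz N (d a - 1) (B a j) =
      hz N (d a) ((C (lam j) * X + C (mu j)) * B a j) := fun j => by
    have := (h3 K N).2.1 1 (d a - 1) _ _ (hlin j) (hBd j)
    rw [hda, (h3 K N).2.2.1] at this
    exact this.symm
  have hdt : dtop Z own mult (fun _ => (1 : K)) (fun s => - t s) (fun s => al (own s) s)
      (fun s => be (own s) s) a =
      hz N (d a) (f a - ∑ j, (C (lam j) * X + C (mu j)) * B a j) := by
    unfold dtop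
    split_ifs with ha
    · rw [← hZ a ha, sub_self]
      unfold hz
      simp
    · rw [htan a ha, hz_sum_form h3 N (Sl a) t mult (al a) (be a) (fun s _ => hmult s) (d a) (hsum a ha)]
      refine Finset.sum_congr rfl fun s hs => ?_
      have : own s = a := (Finset.mem_filter.1 hs).2
      subst this
      rfl
  show dtop Z own mult (fun _ => (1 : K)) (fun s => - t s) (fun s => al (own s) s)
      (fun s => be (own s) s) a +
    ∑ j : Fin N, ((MvPolynomial.X j.succ.succ - lf 0 0) * cof d b' a j -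
      lf (- lam j) (- mu j) * cof d b a j) = φ a
  rw [hdt]
  have e1 : ∀ j : Fin N, ((MvPolynomial.X j.succ.succ - lf 0 0) * cof d b' a j -
      lf (- lam j) (- mu j) * cof d b a j : MvPolynomial (Fin (N + 2)) K) =
      MvPolynomial.X j.succ.succ * ψ a j + hz N (d a) ((C (lam j) * X + C (mu j)) * B a j) := by
    intro j
    rw [hlf0, sub_zero, hb', hlfneg, hb, ← hprod]
    ring
  rw [Finset.sum_congr rfl fun j _ => e1 j, Finset.sum_add_distrib, ← (h3 K N).2.2.2.2.2.2,
    add_comm (∑ j, _) (hz N (d a) _), ← add_assoc, ← (h3 K N).1, sub_add_cancel, ← hφe a]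

end Pool.Agent.Helper72.CC
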