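import Pool.Agent.Helper23.CC.Spec

set_option autoImplicit false

namespace Pool.Agent.Helper72.CC

open Pool.Agent.Helper23.CC Polynomial

lemma basis_form {K : Type} [Field K] {σ : Type} [DecidableEq σ] (S : Finset σ) (t : σ → K) (s : σ) :
    Lagrange.basis S t s = C (∏ u ∈ S.erase s, (t s - t u)⁻¹) * ∏ u ∈ S.erase s, (X - C (t u)) := by
  unfold Lagrange.basis Lagrange.basisDivisor
  rw [Finset.prod_mul_distrib, map_prod]

theorem tan_aux {K : Type} [Field K] [CharZero K] {σ : Type} [DecidableEq σ] (S : Finset σ)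
    (t : σ → K) (mult : σ → ℕ) (hinj : Set.InjOn t S) (hne : S.Nonempty) (hm : ∀ s ∈ S, 1 ≤ mult s)
    (g : Polynomial K) (hg : g.natDegree ≤ S.card) : ∃ al be : σ → K,
      g = ∑ s ∈ S, (mult s : Polynomial K) * (C (al s) * X + C (be s)) *
          ∏ u ∈ S.erase s, (X - C (t u)) := by
  obtain ⟨s0, hs0⟩ := hne
  set P : Polynomial K := ∏ u ∈ S, (X - C (t u)) with hP
  have hPm : P.Monic := monic_prod_of_monic _ _ fun u _ => monic_X_sub_C _
  have hPd : P.natDegree = S.card := by
    rw [hP, natDegree_prod_of_monic _ _ fun u _ => monic_X_sub_C _]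
    simp
  set c : K := g.coeff S.card with hc
  set g' : Polynomial K := g - C c * P with hg'
  have hg'd : g'.degree < S.card := by
    rw [degree_lt_iff_coeff_zero]
    intro m hmm
    rw [hg', coeff_sub, coeff_C_mul]
    rcases Nat.eq_or_lt_of_le hmm with h | h
    · rw [← h, ← hc]
      have : P.coeff S.card = 1 := by rw [← hPd]; exact hPm.coeff_natDegree
      rw [this]; ring
    · rw [coeff_eq_zero_of_natDegree_lt (lt_of_le_of_lt hg h),
        coeff_eq_zero_of_natDegree_lt (by rw [hPd]; exact h)]
      ring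
  have hlag := Lagrange.eq_interpolate hinj hg'd
  rw [Lagrange.interpolate_apply] at hlag
  set d : σ → K := fun s => g'.eval (t s) * ∏ u ∈ S.erase s, (t s - t u)⁻¹ with hd
  have hg'2 : g' = ∑ s ∈ S, C (d s) * ∏ u ∈ S.erase s, (X - C (t u)) := by
    conv_lhs => rw [hlag]
    refine Finset.sum_congr rfl fun s _ => ?_
    rw [basis_form, ← mul_assoc, ← C_mul]
  refine ⟨fun s => if s = s0 then c / mult s0 else 0,
    fun s => d s / mult s - (if s = s0 then c * t s0 / mult s0 else 0), ?_⟩
  have hterm : ∀ s ∈ S, (mult s : Polynomial K) * (C (if s = s0 then c / mult s0 else 0) * X +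
      C (d s / mult s - (if s = s0 then c * t s0 / mult s0 else 0))) =
      C (d s) + (if s = s0 then C c * (X - C (t s0)) else 0) := by
    intro s hs
    have hms : (mult s : K) ≠ 0 := by
      have := hm s hs
      exact_mod_cast (by omega : mult s ≠ 0)
    have hcast : (mult s : Polynomial K) = C (mult s : K) := by simp
    rw [hcast]
    split_ifs with h
    · subst h
      have e1 : C (mult s : K) * (C (c / mult s) * X + C (d s / mult s - c * t s / mult s)) =
          C ((mult s : K) * (c / mult s)) * X + C ((mult s : K) * (d s / mult s - c * t s / mult s)) := by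
        rw [C_mul, C_mul]; ring
      rw [e1, mul_div_cancel₀ c hms]
      have e2 : (mult s : K) * (d s / mult s - c * t s / mult s) = d s - c * t s := by
        field_simp
      rw [e2, C_sub, C_mul (a := c)]; ring
    · have e1 : C (mult s : K) * (C 0 * X + C (d s / mult s - 0)) = C ((mult s : K) * (d s / mult s)) := by
        rw [C_mul, sub_zero]; simp
      rw [e1, mul_div_cancel₀ (d s) hms, add_zero]
  have hsum : ∑ s ∈ S, (mult s : Polynomial K) * (C (if s = s0 then c / mult s0 else 0) * X +
      C (d s / mult s - (if s = s0 then c * t s0 / mult s0 else 0))) * ∏ u ∈ S.erase s, (X - C (t u)) =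
      ∑ s ∈ S, (C (d s) * ∏ u ∈ S.erase s, (X - C (t u)) +
        (if s = s0 then C c * (X - C (t s0)) * ∏ u ∈ S.erase s, (X - C (t u)) else 0)) := by
    refine Finset.sum_congr rfl fun s hs => ?_
    rw [hterm s hs, add_mul]
    congr 1
    split_ifs with h
    · rfl
    · rw [zero_mul]
  rw [hsum, Finset.sum_add_distrib, ← hg'2, Finset.sum_ite_eq' S s0, if_pos hs0, mul_assoc,
    Finset.mul_prod_erase S (fun u => X - C (t u)) hs0, ← hP, hg']
  ring

theorem tan : St_TAN := by
  intro K _ _ σ _ S t mult hinj hne hm g hg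
  obtain ⟨al, be, h⟩ := tan_aux S t mult hinj hne hm g hg
  refine ⟨al, be, ?_⟩
  conv_lhs => rw [h]
  rw [Finset.mul_sum]
  refine Finset.sum_congr rfl fun s hs => ?_
  rw [← Finset.mul_prod_erase S (fun s => (X - C (t s)) ^ (mult s - 1)) hs]
  have e : ∏ u ∈ S.erase s, (X - C (t u)) ^ mult u =
      (∏ u ∈ S.erase s, (X - C (t u)) ^ (mult u - 1)) * ∏ u ∈ S.erase s, (X - C (t u)) := by
    rw [← Finset.prod_mul_distrib]
    refine Finset.prod_congr rfl fun u hu => ?_
    have h1 := hm u (Finset.mem_of_mem_erase hu)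
    obtain ⟨k, hk⟩ : ∃ k, mult u = k + 1 := ⟨mult u - 1, by omega⟩
    rw [hk, Nat.add_sub_cancel, pow_succ]
  rw [e]
  ring

end Pool.Agent.Helper72.CC
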